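import Pool.Agent.H839.CQ.Main

/-!
# The categorical local Langlands correspondence: generic and non-generic blocks

Let `Λ` be the set of the standard Levi subgroups of the quasi-split group `G`. For `M` in `Λ` the
category `Rep(M)` is the product of the category `Tg M` of the generic Bernstein blocks and the
category `Tn M` of the other blocks, and parabolic induction respects the two parts.  The data of Q1,
on the level of homotopy categories, are collected in `LeviData`.

`S.Question` is the statement of Q1 for `G`: fully faithful functors `LLC_M`, for all standard Levi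
subgroups `M`, with `LLC_M(W_M) ≅ O` and compatible with parabolic induction from `M` to `G`.
`S.Coherent` is the form in which the functors are compatible with parabolic induction for all
pairs `L ≤ M` of standard Levi subgroups (`L` the Levi subgroup of a standard parabolic of `M`).
It is shown:

* for each compatible family on the generic parts alone, the essential image of the generic part
  of `Rep(M)` is the localizing subcategory `S.Springer M` of `IndCoh(X_M)` generated by the spectral
  inductions of the structure sheaves (coherent Springer sheaves) for the Levi subgroups of `M`; so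
  it does not depend on the family;
* a compatible family for `G` exists if and only if there are a compatible family on the generic
  parts and a compatible family of fully faithful functors on the non-generic parts with images
  orthogonal, on both sides, to the categories `S.Springer M`.

The generic family is known for many groups, so that for these groups the question is about
the non-generic blocks and the coherent Springer sheaves only.
-/

namespace Pool.Agent.Results.MP_7428c0_nt.GenericAndNonGeneric

open CategoryTheory CategoryTheory.Limits Pretriangulated Pool.Agent.H839.CQ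

universe w v u

theorem result {Λ : Type} {le : Λ → Λ → Prop} {Tg Tn I : Λ → Type u}
    [∀ M, Category.{v} (Tg M)] [∀ M, Preadditive (Tg M)] [∀ M, HasZeroObject (Tg M)]
    [∀ M, HasShift (Tg M) ℤ] [∀ M (n : ℤ), (shiftFunctor (Tg M) n).Additive]
    [∀ M, Pretriangulated (Tg M)] [∀ M, HasCoproducts.{w} (Tg M)]
    [∀ M, Category.{v} (Tn M)] [∀ M, Preadditive (Tn M)] [∀ M, HasZeroObject (Tn M)]
    [∀ M, Category.{v} (I M)] [∀ M, Preadditive (I M)] [∀ M, HasZeroObject (I M)]
    [∀ M, HasShift (I M) ℤ] [∀ M (n : ℤ), (shiftFunctor (I M) n).Additive]
    [∀ M, Pretriangulated (I M)]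
    (S : LeviData.{w} Λ le Tg Tn I) :
    (S.Coherent ↔ (∃ Φ, S.IsGeneric Φ) ∧ ∃ Ψ, S.IsNonGeneric Ψ) ∧
    (∀ Φ, S.IsGeneric Φ → ∀ (M : Λ) (N : I M),
      S.Springer M N ↔ ∃ A : Tg M, Nonempty ((Φ M).obj A ≅ N)) ∧
    (S.Coherent → S.Question) := by
  refine ⟨⟨fun h => S.split h, fun ⟨⟨Φ, hΦ⟩, Ψ, hΨ⟩ => S.join Φ hΦ Ψ hΨ⟩,
    fun Φ hΦ M N => S.image_eq Φ hΦ M N, ?_⟩
  rintro ⟨Φ, h1, h2⟩
  exact ⟨Φ, h1, fun L M h _ => h2 L M h trivial⟩

end Pool.Agent.Results.MP_7428c0_nt.GenericAndNonGeneric
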